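import Pool.Agent.Lib.P3e0609.Mom

set_option autoImplicit false

open MeasureTheory Set Filter Topology
open scoped ComplexConjugate ContDiff

namespace Pool.Agent.Results.MP_3e0609_an.FullProjection

open Pool.Agent.Lib.P3e0609

lemma meanFree_iff {L : ℝ} (hL : 0 < L) (f : L2 L) : MeanFree f ↔ rc f 0 = 0 := by
  unfold MeanFree rc fn
  rw [fourierC_eq]
  have h1 : ∫ x, (f x : ℂ) * ek L (-0) x ∂tm L = ((∫ x, f x ∂tm L : ℝ) : ℂ) := by
    rw [← integral_complex_ofReal]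
    congr 1
    funext x
    rw [neg_zero, ek_zero, mul_one]
  rw [h1]
  have h2 : ((1 / L ^ 2 : ℝ) : ℂ) ≠ 0 := by
    have : (1 / L ^ 2 : ℝ) ≠ 0 := by positivity
    exact_mod_cast this
  constructor
  · intro h; rw [h]; simp
  · intro h
    have h3 := (mul_eq_zero.1 h).resolve_left h2
    exact_mod_cast h3

lemma memLp_cont {L : ℝ} {F : ℝ × ℝ → ℂ} (hF : Continuous F) : MemLp F 2 (tm L) := by
  obtain ⟨C, hC⟩ := ((isCompact_Icc (a := (0 : ℝ)) (b := L)).prod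
      (isCompact_Icc (a := (0 : ℝ)) (b := L))).exists_bound_of_continuousOn hF.continuousOn
  refine MemLp.of_bound hF.aestronglyMeasurable C ?_
  filter_upwards [ae_cell L] with x hx
  exact hC x ⟨Ioc_subset_Icc_self hx.1, Ioc_subset_Icc_self hx.2⟩

lemma divfree {L κ : ℝ} (hL : 0 < L) (u₁ u₂ : L2 L) (w : Z2 → ℂ)
    (h1 : ∀ k, rc u₁ k = U1 κ w k) (h2 : ∀ k, rc u₂ k = U2 κ w k) {φ : ℝ × ℝ → ℝ}
    (hφ : SmoothPer L φ) :
    ∫ x, (u₁ x * fderiv ℝ φ x (1, 0) + u₂ x * fderiv ℝ φ x (0, 1)) ∂tm L = 0 := by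
  have hc1 : Continuous fun x => fderiv ℝ φ x (1, 0) :=
    (hφ.1.continuous_fderiv (by simp)).clm_apply continuous_const
  have hc2 : Continuous fun x => fderiv ℝ φ x (0, 1) :=
    (hφ.1.continuous_fderiv (by simp)).clm_apply continuous_const
  have m1 := memLp_cont (L := L) (Complex.continuous_ofReal.comp hc1)
  have m2 := memLp_cont (L := L) (Complex.continuous_ofReal.comp hc2)
  have p1 := parseval hL (memLp_ofReal u₁) m1
  have p2 := parseval hL (memLp_ofReal u₂) m2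
  have p3 := p1.add p2
  have e1 : (∫ x, conj ((u₁ x : ℝ) : ℂ) * ((Complex.ofReal ∘ fun x => fderiv ℝ φ x (1, 0)) x) ∂tm L) +
      ∫ x, conj ((u₂ x : ℝ) : ℂ) * ((Complex.ofReal ∘ fun x => fderiv ℝ φ x (0, 1)) x) ∂tm L =
      ((∫ x, (u₁ x * fderiv ℝ φ x (1, 0) + u₂ x * fderiv ℝ φ x (0, 1)) ∂tm L : ℝ) : ℂ) := by
    rw [← integral_complex_ofReal, ← integral_add]
    · congr 1
      funext x
      simp only [Complex.conj_ofReal, Function.comp_apply]
      push_cast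
      ring
    · exact ((memLp_ofReal u₁).star).integrable_mul m1
    · exact ((memLp_ofReal u₂).star).integrable_mul m2
  rw [e1] at p3
  have e2 : (fun k => (L : ℂ) ^ 2 * (conj (fourierC L (fun x => ((u₁ x : ℝ) : ℂ)) k) *
      fourierC L (Complex.ofReal ∘ fun x => fderiv ℝ φ x (1, 0)) k) +
      (L : ℂ) ^ 2 * (conj (fourierC L (fun x => ((u₂ x : ℝ) : ℂ)) k) *
      fourierC L (Complex.ofReal ∘ fun x => fderiv ℝ φ x (0, 1)) k)) = fun _ => 0 := by
    funext k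
    have q1 : fourierC L (Complex.ofReal ∘ fun x => fderiv ℝ φ x (1, 0)) k = _ :=
      fourierC_d1 hL hφ k
    have q2 : fourierC L (Complex.ofReal ∘ fun x => fderiv ℝ φ x (0, 1)) k = _ :=
      fourierC_d2 hL hφ k
    have r1 : fourierC L (fun x => ((u₁ x : ℝ) : ℂ)) k = U1 κ w k := h1 k
    have r2 : fourierC L (fun x => ((u₂ x : ℝ) : ℂ)) k = U2 κ w k := h2 k
    rw [q1, q2, r1, r2]
    unfold U1 U2
    simp only [map_mul, map_neg, Complex.conj_I, Complex.conj_ofReal]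
    push_cast
    ring
  rw [e2] at p3
  have := p3.unique hasSum_zero
  exact_mod_cast this

lemma weaklyCont_iff {L : ℝ} (f : ℝ → L2 L) (h : ∀ h : L2 L, Continuous fun t => inner ℝ (f t) h) :
    WeaklyCont f := by
  intro k
  refine (h k).congr fun t => ?_
  rw [L2.inner_def]
  refine integral_congr_ae (Eventually.of_forall fun x => ?_)
  simp only [RCLike.inner_apply, conj_trivial, fn]
  exact mul_comm _ _

lemma dirichlet_le {L κ : ℝ} (hL : 0 < L) (hκ : κ = 2 * Real.pi / L) (u : L2 L) (w : Z2 → ℂ) (B : ℝ)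
    (hw : L2le w B)
    (h : ∀ k, κ ^ 2 * nsq k * ‖rc u k‖ ^ 2 ≤ ‖w k‖ ^ 2) :
    dirichlet u ≤ ENNReal.ofReal (L ^ 2 * B ^ 2) := by
  unfold dirichlet fn
  rw [ENNReal.tsum_eq_iSup_sum]
  refine iSup_le fun s => ?_
  rw [← ENNReal.ofReal_sum_of_nonneg (fun k _ => by positivity)]
  apply ENNReal.ofReal_le_ofReal
  calc ∑ k ∈ s, L ^ 2 * ((2 * Real.pi / L) ^ 2 * ((k.1 : ℝ) ^ 2 + (k.2 : ℝ) ^ 2)) *
      ‖fourierC L (fun x => (u x : ℂ)) k‖ ^ 2 ≤ ∑ k ∈ s, L ^ 2 * ‖w k‖ ^ 2 := by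
        refine Finset.sum_le_sum fun k _ => ?_
        have h1 := h k
        rw [hκ] at h1
        rw [mul_assoc]
        gcongr
        exact h1
    _ = L ^ 2 * ∑ k ∈ s, ‖w k‖ ^ 2 := by rw [Finset.mul_sum]
    _ ≤ L ^ 2 * B ^ 2 := by gcongr; exact hw s

lemma energy1 {κ : ℝ} (hκ : 0 < κ) (w : Z2 → ℂ) (k : Z2) :
    κ ^ 2 * nsq k * ‖U1 κ w k‖ ^ 2 ≤ ‖w k‖ ^ 2 := by
  rcases eq_or_ne k 0 with rfl | hk
  · simp [nsq]
  have hn := nsq_pos hk
  unfold U1
  rw [norm_mul, norm_mul, Complex.norm_I, one_mul, Complex.norm_real, Real.norm_eq_abs, mul_pow,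
    sq_abs]
  have h1 : κ ^ 2 * nsq k * ((k.2 / (κ * nsq k)) ^ 2 * ‖w k‖ ^ 2) =
      ((k.2 : ℝ) ^ 2 / nsq k) * ‖w k‖ ^ 2 := by field_simp
  rw [h1]
  have h2 : (k.2 : ℝ) ^ 2 / nsq k ≤ 1 := by
    rw [div_le_one hn]; unfold nsq; nlinarith [sq_nonneg (k.1 : ℝ)]
  nlinarith [sq_nonneg ‖w k‖]

lemma energy2 {κ : ℝ} (hκ : 0 < κ) (w : Z2 → ℂ) (k : Z2) :
    κ ^ 2 * nsq k * ‖U2 κ w k‖ ^ 2 ≤ ‖w k‖ ^ 2 := by
  rcases eq_or_ne k 0 with rfl | hk
  · simp [nsq]
  have hn := nsq_pos hk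
  unfold U2
  rw [norm_mul, norm_neg, norm_mul, Complex.norm_I, one_mul, Complex.norm_real, Real.norm_eq_abs,
    mul_pow, sq_abs]
  have h1 : κ ^ 2 * nsq k * ((k.1 / (κ * nsq k)) ^ 2 * ‖w k‖ ^ 2) =
      ((k.1 : ℝ) ^ 2 / nsq k) * ‖w k‖ ^ 2 := by field_simp
  rw [h1]
  have h2 : (k.1 : ℝ) ^ 2 / nsq k ≤ 1 := by
    rw [div_le_one hn]; unfold nsq; nlinarith [sq_nonneg (k.2 : ℝ)]
  nlinarith [sq_nonneg ‖w k‖]

lemma sqrt_nsq_le {L κ : ℝ} (hκ0 : 0 < κ) (hκ : κ = 2 * Real.pi / L) (k : Z2) :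
    Real.sqrt (nsq k) ≤ (1 + 1 / κ ^ 2) * WW L k := by
  have h1 := WW_ge_one L k
  have h2 := WW_ge L k
  rw [← hκ] at h2
  have h3 : Real.sqrt (nsq k) ≤ 1 + nsq k := by
    rw [Real.sqrt_le_left (by have := nsq_nonneg k; linarith)]
    nlinarith [nsq_nonneg k]
  have h4 : nsq k ≤ 1 / κ ^ 2 * WW L k := by
    rw [one_div, inv_mul_eq_div, le_div_iff₀ (by positivity)]
    linarith
  linarith

lemma nsq_le {L κ : ℝ} (hκ0 : 0 < κ) (hκ : κ = 2 * Real.pi / L) (k : Z2) :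
    nsq k ≤ 1 / κ ^ 2 * WW L k := by
  have h2 := WW_ge L k
  rw [← hκ] at h2
  rw [one_div, inv_mul_eq_div, le_div_iff₀ (by positivity)]
  linarith

/-- Every mean-free `θ₀ ∈ L²` is the temperature component of a point of `𝒜`. -/
theorem exists_point (L ν g : ℝ) (hL : 0 < L) (hν : 0 < ν) (hg : 0 < g) (θ₀ : L2 L)
    (h0 : MeanFree θ₀) : ∃ u : Vel L, InAttractor ν g u θ₀ := by
  obtain ⟨κ, hκ⟩ : ∃ κ, κ = 2 * Real.pi / L := ⟨_, rfl⟩
  have hκ0 : 0 < κ := by rw [hκ]; have := Real.pi_pos; positivity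
  set r : ℝ := ‖θ₀‖ / L with hr
  have hr0 : 0 ≤ r := by positivity
  obtain ⟨B, Θ, Ω, hB0, f1, f2, f3, f4, f5, f6, f7, f8, f9⟩ := global_fourier κ ν g r hκ0 hν hg hr0
    (rc θ₀) (rc_neg θ₀) ((meanFree_iff hL θ₀).1 h0) (L2le_rc hL θ₀)
  have hU1 : ∀ t, L2le (U1 κ (Ω t)) (B * (1 / κ)) := fun t =>
    L2le_of_le (f6 t) fun k => by
      rw [mul_one_div]; exact norm_U1_le hκ0 _ _
  have hU2 : ∀ t, L2le (U2 κ (Ω t)) (B * (1 / κ)) := fun t =>
    L2le_of_le (f6 t) fun k => by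
      rw [mul_one_div]; exact norm_U2_le hκ0 _ _
  have hBκ : 0 ≤ B * (1 / κ) := by positivity
  choose θ hθ hθn using fun t => riesz_fischer hL (Θ t) r hr0 (f5 t) (f1 t)
  choose u₁ hu₁ hu₁n using fun t => riesz_fischer hL (U1 κ (Ω t)) (B * (1 / κ)) hBκ (hU1 t)
    (U1_neg κ (f2 t))
  choose u₂ hu₂ hu₂n using fun t => riesz_fischer hL (U2 κ (Ω t)) (B * (1 / κ)) hBκ (hU2 t)
    (U2_neg κ (f2 t))
  have hrcθ : ∀ t, rc (θ t) = Θ t := fun t => funext (hθ t)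
  have hrc1 : ∀ t, rc (u₁ t) = U1 κ (Ω t) := fun t => funext (hu₁ t)
  have hrc2 : ∀ t, rc (u₂ t) = U2 κ (Ω t) := fun t => funext (hu₂ t)
  have f9' : ∀ t k, HasDerivAt (fun s => Ω s k) (wdot κ ν g (Ω t) (Θ t) k) t := f9
  have hΘc : ∀ k, Continuous fun t => Θ t k := fun k =>
    continuous_iff_continuousAt.2 fun t => (f8 t k).continuousAt
  have hΩc : ∀ k, Continuous fun t => Ω t k := fun k =>
    continuous_iff_continuousAt.2 fun t => (f9' t k).continuousAt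
  refine ⟨⟨u₁ 0, u₂ 0⟩, fun t => ⟨u₁ t, u₂ t⟩, θ, ?_, ⟨_, hu₁n⟩, ⟨_, hu₂n⟩, ⟨_, hθn⟩, rfl, ?_⟩
  swap
  · apply rc_inj hL
    intro k
    rw [hθ, f7]
  refine ⟨?_, ?_, ?_, ?_, ?_, ?_, ?_, ?_⟩
  · intro t
    refine ⟨(meanFree_iff hL _).2 ?_, (meanFree_iff hL _).2 ?_, fun φ hφ => ?_⟩
    · change rc (u₁ t) 0 = 0
      rw [hu₁]; simp [U1, f4]
    · change rc (u₂ t) 0 = 0
      rw [hu₂]; simp [U2, f4]
    · exact divfree hL (u₁ t) (u₂ t) (Ω t) (hu₁ t) (hu₂ t) hφ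
  · intro t
    rw [meanFree_iff hL, hθ, f3]
  · refine weaklyCont_iff _ (weaklyCont_of hL hBκ (fun t => ?_) (fun k => ?_))
    · change L2le (rc (u₁ t)) _
      rw [hrc1]; exact hU1 t
    · change Continuous fun t => rc (u₁ t) k
      simp_rw [hu₁]
      unfold U1
      exact continuous_const.mul (hΩc k)
  · refine weaklyCont_iff _ (weaklyCont_of hL hBκ (fun t => ?_) (fun k => ?_))
    · change L2le (rc (u₂ t)) _
      rw [hrc2]; exact hU2 t
    · change Continuous fun t => rc (u₂ t) k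
      simp_rw [hu₂]
      unfold U2
      exact continuous_const.mul (hΩc k)
  · refine weaklyCont_iff _ (weaklyCont_of hL hr0 (fun t => ?_) (fun k => ?_))
    · rw [hrcθ]; exact f5 t
    · simp_rw [hθ]; exact hΘc k
  · intro a b
    have hle : ∀ t, dirichlet (u₁ t) + dirichlet (u₂ t) ≤
        ENNReal.ofReal (L ^ 2 * B ^ 2) + ENNReal.ofReal (L ^ 2 * B ^ 2) := by
      intro t
      refine add_le_add (dirichlet_le hL hκ _ (Ω t) B (f6 t) fun k => ?_)
        (dirichlet_le hL hκ _ (Ω t) B (f6 t) fun k => ?_)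
      · rw [hu₁]; exact energy1 hκ0 _ _
      · rw [hu₂]; exact energy2 hκ0 _ _
    refine (lintegral_mono (fun t => hle t)).trans_lt ?_
    rw [lintegral_const, Measure.restrict_apply_univ, Real.volume_Icc]
    exact ENNReal.mul_lt_top (ENNReal.add_lt_top.2 ⟨ENNReal.ofReal_lt_top, ENNReal.ofReal_lt_top⟩)
      ENNReal.ofReal_lt_top
  · -- momentum
    intro Φ₁ Φ₂ hΦ₁ hΦ₂ hdiv
    set J : Z2 → ℝ → ℂ := fun k t => (L : ℂ) ^ 2 * (
      conj (U1 κ (Ω t) k) * tc L Φ₁ k t + conj (U2 κ (Ω t) k) * tc L Φ₂ k t) with hJ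
    set J' : Z2 → ℝ → ℂ := fun k t => (L : ℂ) ^ 2 * (
        (conj (U1 κ (wdot κ ν g (Ω t) (Θ t)) k) * tc L Φ₁ k t +
          conj (U1 κ (Ω t) k) * tc L (dt Φ₁) k t) +
        (conj (U2 κ (wdot κ ν g (Ω t) (Θ t)) k) * tc L Φ₂ k t +
          conj (U2 κ (Ω t) k) * tc L (dt Φ₂) k t)) with hJ'
    have hslice : ∀ t, ((∫ x, (u₁ t x * (dt Φ₁ (t, x) + u₁ t x * d1 Φ₁ (t, x) + u₂ t x * d2 Φ₁ (t, x)
          + ν * lap Φ₁ (t, x))
      + u₂ t x * (dt Φ₂ (t, x) + u₁ t x * d1 Φ₂ (t, x) + u₂ t x * d2 Φ₂ (t, x)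
          + ν * lap Φ₂ (t, x))
      + g * θ t x * Φ₂ (t, x)) ∂tm L : ℝ) : ℂ) = ∑' k, J' k t := by
      intro t
      have h3 := momentum_slice ν g hL hκ (θ t) (u₁ t) (u₂ t) (Ω t) B hB0 (f6 t) (f4 t)
        (by rw [hθ, f3]) (hu₁ t) (hu₂ t) hΦ₁ hΦ₂ hdiv t
      rw [hrcθ] at h3
      exact h3.tsum_eq.symm
    obtain ⟨T₁, hT₁0, hT₁⟩ := hΦ₁.tc_zero
    obtain ⟨T₂, hT₂0, hT₂⟩ := hΦ₂.tc_zero
    obtain ⟨T₃, hT₃0, hT₃⟩ := hΦ₁.dt.tc_zero
    obtain ⟨T₄, hT₄0, hT₄⟩ := hΦ₂.dt.tc_zero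
    obtain ⟨C₁, hC₁0, hC₁⟩ := hΦ₁.decay hL
    obtain ⟨C₂, hC₂0, hC₂⟩ := hΦ₂.decay hL
    obtain ⟨C₃, hC₃0, hC₃⟩ := hΦ₁.dt.decay hL
    obtain ⟨C₄, hC₄0, hC₄⟩ := hΦ₂.dt.decay hL
    set A : ℝ := ((1 + 1 / κ ^ 2) * (B * B) + ν * κ ^ 2 * (1 / κ ^ 2) * B + κ * g * (1 / κ ^ 2) * r)
      with hA
    have hA0 : 0 ≤ A := by positivity
    have hwd : ∀ t k, ‖wdot κ ν g (Ω t) (Θ t) k‖ ≤ A * WW L k := by
      intro t k
      have hW0 : 0 ≤ WW L k := zero_le_one.trans (WW_ge_one L k)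
      unfold wdot
      refine (norm_add_le _ _).trans ?_
      have g1 := norm_BS_le (f6 t) (f6 t) hB0 hB0 k
      have g2 : ‖((ν * κ ^ 2 * nsq k : ℝ) : ℂ) * Ω t k‖ ≤
          ν * κ ^ 2 * (1 / κ ^ 2 * WW L k) * B := by
        rw [norm_mul, Complex.norm_real, Real.norm_eq_abs, abs_of_nonneg (by
          have := nsq_nonneg k; positivity)]
        gcongr
        · exact nsq_le hκ0 hκ k
        · exact (f6 t).norm_le hB0 k
      have g3 : ‖Complex.I * (κ * g * k.1 : ℝ) * Θ t k‖ ≤ κ * g * (1 / κ ^ 2 * WW L k) * r := by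
        rw [norm_mul, norm_mul, Complex.norm_I, one_mul, Complex.norm_real, Real.norm_eq_abs,
          abs_mul, abs_of_pos (by positivity : 0 < κ * g)]
        gcongr
        · exact (abs_fst_le k).trans (nsq_le hκ0 hκ k)
        · exact (f5 t).norm_le hr0 k
      have g4 : Real.sqrt (nsq k) * (B * B) ≤ (1 + 1 / κ ^ 2) * WW L k * (B * B) := by
        gcongr
        exact sqrt_nsq_le hκ0 hκ k
      have g5 := norm_sub_le (BS k (Ω t) (Ω t)) (((ν * κ ^ 2 * nsq k : ℝ) : ℂ) * Ω t k)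
      have g6 : A * WW L k = (1 + 1 / κ ^ 2) * WW L k * (B * B) +
        ν * κ ^ 2 * (1 / κ ^ 2 * WW L k) * B + κ * g * (1 / κ ^ 2 * WW L k) * r := by
        rw [hA]; ring
      linarith
    have hfin := time_integral J J' (fun k t => by
        have e1 : HasDerivAt (fun s => conj (U1 κ (Ω s) k))
            (conj (U1 κ (wdot κ ν g (Ω t) (Θ t)) k)) t := by
          unfold U1
          exact ((f9' t k).const_mul _).star
        have e2 : HasDerivAt (fun s => conj (U2 κ (Ω s) k))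
            (conj (U2 κ (wdot κ ν g (Ω t) (Θ t)) k)) t := by
          unfold U2
          exact ((f9' t k).const_mul _).star
        exact ((e1.mul (hasDerivAt_tc hΦ₁ k t)).add (e2.mul (hasDerivAt_tc hΦ₂ k t))).const_mul _)
      (max (max T₁ T₂) (max T₃ T₄)) (fun k t ht => by
        have q1 : T₁ ≤ |t| := ((le_max_left _ _).trans (le_max_left _ _)).trans ht
        have q2 : T₂ ≤ |t| := ((le_max_right _ _).trans (le_max_left _ _)).trans ht
        have q3 : T₃ ≤ |t| := ((le_max_left _ _).trans (le_max_right _ _)).trans ht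
        have q4 : T₄ ≤ |t| := ((le_max_right _ _).trans (le_max_right _ _)).trans ht
        simp only [hJ, hJ', hT₁ k t q1, hT₂ k t q2, hT₃ k t q3, hT₄ k t q4, mul_zero, add_zero,
          and_self])
      (fun k => (L ^ 2 * ((A * (1 / κ) * C₁ + B * (1 / κ) * C₃) + (A * (1 / κ) * C₂ +
        B * (1 / κ) * C₄))) * (1 / WW L k)) ((summable_WW hL).mul_left _)
      (fun k t => by
        have hW1 := WW_ge_one L k
        have hW0 : 0 < WW L k := one_pos.trans_le hW1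
        have b1 : ‖U1 κ (wdot κ ν g (Ω t) (Θ t)) k‖ ≤ A * WW L k * (1 / κ) := by
          refine (norm_U1_le hκ0 _ _).trans ?_
          rw [← mul_one_div]
          gcongr
          exact hwd t k
        have b2 : ‖U2 κ (wdot κ ν g (Ω t) (Θ t)) k‖ ≤ A * WW L k * (1 / κ) := by
          refine (norm_U2_le hκ0 _ _).trans ?_
          rw [← mul_one_div]
          gcongr
          exact hwd t k
        have b3 : ‖U1 κ (Ω t) k‖ ≤ B * (1 / κ) := (hU1 t).norm_le hBκ k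
        have b4 : ‖U2 κ (Ω t) k‖ ≤ B * (1 / κ) := (hU2 t).norm_le hBκ k
        have hinv : ∀ C : ℝ, 0 ≤ C → C / WW L k ^ 2 ≤ C * (1 / WW L k) := by
          intro C hC
          rw [mul_one_div]
          gcongr
          nlinarith
        have hinv2 : ∀ C : ℝ, A * WW L k * (1 / κ) * (C / WW L k ^ 2) =
            A * (1 / κ) * C * (1 / WW L k) := by
          intro C
          field_simp
        simp only [hJ']
        rw [norm_mul, norm_pow, Complex.norm_real, Real.norm_eq_abs, abs_of_pos hL]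
        have t1 : ‖conj (U1 κ (wdot κ ν g (Ω t) (Θ t)) k) * tc L Φ₁ k t‖ ≤
            A * (1 / κ) * C₁ * (1 / WW L k) := by
          rw [norm_mul, RCLike.norm_conj, ← hinv2]
          exact mul_le_mul b1 (hC₁ k t) (norm_nonneg _) (by positivity)
        have t2 : ‖conj (U2 κ (wdot κ ν g (Ω t) (Θ t)) k) * tc L Φ₂ k t‖ ≤
            A * (1 / κ) * C₂ * (1 / WW L k) := by
          rw [norm_mul, RCLike.norm_conj, ← hinv2]
          exact mul_le_mul b2 (hC₂ k t) (norm_nonneg _) (by positivity)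
        have t3 : ‖conj (U1 κ (Ω t) k) * tc L (dt Φ₁) k t‖ ≤
            B * (1 / κ) * (C₃ * (1 / WW L k)) := by
          rw [norm_mul, RCLike.norm_conj]
          exact mul_le_mul b3 ((hC₃ k t).trans (hinv C₃ hC₃0)) (norm_nonneg _) (by positivity)
        have t4 : ‖conj (U2 κ (Ω t) k) * tc L (dt Φ₂) k t‖ ≤
            B * (1 / κ) * (C₄ * (1 / WW L k)) := by
          rw [norm_mul, RCLike.norm_conj]
          exact mul_le_mul b4 ((hC₄ k t).trans (hinv C₄ hC₄0)) (norm_nonneg _) (by positivity)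
        calc L ^ 2 * ‖_‖ ≤ L ^ 2 * ((A * (1 / κ) * C₁ * (1 / WW L k) +
              B * (1 / κ) * (C₃ * (1 / WW L k))) + (A * (1 / κ) * C₂ * (1 / WW L k) +
              B * (1 / κ) * (C₄ * (1 / WW L k)))) := by
              gcongr
              exact (norm_add_le _ _).trans (add_le_add ((norm_add_le _ _).trans (add_le_add t1 t3))
                ((norm_add_le _ _).trans (add_le_add t2 t4)))
          _ = _ := by ring)
    have h5 : ((∫ t : ℝ, ∫ x, (u₁ t x * (dt Φ₁ (t, x) + u₁ t x * d1 Φ₁ (t, x) + u₂ t x * d2 Φ₁ (t, x)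
          + ν * lap Φ₁ (t, x))
      + u₂ t x * (dt Φ₂ (t, x) + u₁ t x * d1 Φ₂ (t, x) + u₂ t x * d2 Φ₂ (t, x)
          + ν * lap Φ₂ (t, x))
      + g * θ t x * Φ₂ (t, x)) ∂tm L : ℝ) : ℂ) = 0 := by
      rw [← integral_complex_ofReal]
      simp_rw [hslice]
      exact hfin
    have h6 : (∫ t : ℝ, ∫ x, (u₁ t x * (dt Φ₁ (t, x) + u₁ t x * d1 Φ₁ (t, x) + u₂ t x * d2 Φ₁ (t, x)
          + ν * lap Φ₁ (t, x))
      + u₂ t x * (dt Φ₂ (t, x) + u₁ t x * d1 Φ₂ (t, x) + u₂ t x * d2 Φ₂ (t, x)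
          + ν * lap Φ₂ (t, x))
      + g * θ t x * Φ₂ (t, x)) ∂tm L) = 0 := by exact_mod_cast h5
    exact h6
  · -- transport
    intro φ hφ
    set J : Z2 → ℝ → ℂ := fun k t => (L : ℂ) ^ 2 * (conj (Θ t k) * tc L φ k t) with hJ
    set J' : Z2 → ℝ → ℂ := fun k t => (L : ℂ) ^ 2 * (conj (BS k (Ω t) (Θ t)) * tc L φ k t +
        conj (Θ t k) * tc L (dt φ) k t) with hJ'
    have hslice : ∀ t, ((∫ x, θ t x * (dt φ (t, x) + u₁ t x * d1 φ (t, x) + u₂ t x * d2 φ (t, x)) ∂tm L : ℝ) : ℂ)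
        = ∑' k, J' k t := by
      intro t
      have h3 := transport_slice hL hκ (θ t) (u₁ t) (u₂ t) (Ω t) B r hB0 hr0 (f6 t)
        (by rw [hrcθ]; exact f5 t) (hu₁ t) (hu₂ t) hφ t
      rw [hrcθ] at h3
      exact h3.tsum_eq.symm
    obtain ⟨T₁, hT₁0, hT₁⟩ := hφ.tc_zero
    obtain ⟨T₂, hT₂0, hT₂⟩ := hφ.dt.tc_zero
    obtain ⟨C₁, hC₁0, hC₁⟩ := hφ.decay hL
    obtain ⟨C₂, hC₂0, hC₂⟩ := hφ.dt.decay hL
    have hfin := time_integral J J' (fun k t => by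
        have e1 : HasDerivAt (fun s => conj (Θ s k)) (conj (BS k (Ω t) (Θ t))) t := (f8 t k).star
        exact (e1.mul (hasDerivAt_tc hφ k t)).const_mul _)
      (max T₁ T₂) (fun k t ht => by
        have q1 : T₁ ≤ |t| := (le_max_left _ _).trans ht
        have q2 : T₂ ≤ |t| := (le_max_right _ _).trans ht
        simp only [hJ, hJ', hT₁ k t q1, hT₂ k t q2, mul_zero, add_zero, and_self])
      (fun k => (L ^ 2 * ((1 + 1 / κ ^ 2) * (B * r) * C₁ + r * C₂)) * (1 / WW L k))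
      ((summable_WW hL).mul_left _)
      (fun k t => by
        have hW1 := WW_ge_one L k
        have hW0 : 0 < WW L k := one_pos.trans_le hW1
        simp only [hJ']
        rw [norm_mul, norm_pow, Complex.norm_real, Real.norm_eq_abs, abs_of_pos hL]
        have t1 : ‖conj (BS k (Ω t) (Θ t)) * tc L φ k t‖ ≤
            (1 + 1 / κ ^ 2) * (B * r) * C₁ * (1 / WW L k) := by
          rw [norm_mul, RCLike.norm_conj]
          have g1 := norm_BS_le (f6 t) (f5 t) hB0 hr0 k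
          have g2 : Real.sqrt (nsq k) * (B * r) ≤ (1 + 1 / κ ^ 2) * WW L k * (B * r) := by
            gcongr
            exact sqrt_nsq_le hκ0 hκ k
          have e3 : (1 + 1 / κ ^ 2) * WW L k * (B * r) * (C₁ / WW L k ^ 2) =
              (1 + 1 / κ ^ 2) * (B * r) * C₁ * (1 / WW L k) := by
            field_simp
          rw [← e3]
          exact mul_le_mul (g1.trans g2) (hC₁ k t) (norm_nonneg _) (by positivity)
        have t2 : ‖conj (Θ t k) * tc L (dt φ) k t‖ ≤ r * (C₂ * (1 / WW L k)) := by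
          rw [norm_mul, RCLike.norm_conj]
          refine mul_le_mul ((f5 t).norm_le hr0 k) ((hC₂ k t).trans ?_) (norm_nonneg _) hr0
          rw [mul_one_div]
          gcongr
          nlinarith
        calc L ^ 2 * ‖_‖ ≤ L ^ 2 * ((1 + 1 / κ ^ 2) * (B * r) * C₁ * (1 / WW L k) +
              r * (C₂ * (1 / WW L k))) := by
              gcongr
              exact (norm_add_le _ _).trans (add_le_add t1 t2)
          _ = _ := by ring)
    have h5 : ((∫ t : ℝ, ∫ x, θ t x * (dt φ (t, x) + u₁ t x * d1 φ (t, x) + u₂ t x * d2 φ (t, x)) ∂tm L : ℝ) : ℂ)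
        = 0 := by
      rw [← integral_complex_ofReal]
      simp_rw [hslice]
      exact hfin
    have h6 : (∫ t : ℝ, ∫ x, θ t x * (dt φ (t, x) + u₁ t x * d1 φ (t, x) + u₂ t x * d2 φ (t, x)) ∂tm L) = 0 := by
      exact_mod_cast h5
    exact h6

/-- For all `L, ν, g > 0`, the temperature projection `P_θ 𝒜` of the weak sigma-attractor of the
semi-dissipative Boussinesq system is the whole space of mean-free `L²` functions; in particular
it has nonempty interior. -/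
theorem result : ∀ L ν g : ℝ, 0 < L → 0 < ν → 0 < g →
    (∀ θ : L2 L, Ptheta L ν g θ ↔ MeanFree θ) ∧ HasInterior (Ptheta L ν g) := by
  intro L ν g hL hν hg
  have h : ∀ θ : L2 L, MeanFree θ → Ptheta L ν g θ := fun θ hθ =>
    exists_point L ν g hL hν hg θ hθ
  refine ⟨fun θ => ⟨?_, h θ⟩, 0, ?_, 1, one_pos, fun θ hθ _ => h θ hθ⟩
  · rintro ⟨u₀, u, θc, hs, -, -, -, -, rfl⟩
    exact hs.meanFree 0
  · rw [meanFree_iff hL]
    unfold rc
    rw [fourierC_congr (G := fun _ => 0)]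
    · simp [fourierC]
    · filter_upwards [Lp.coeFn_zero ℝ 2 (tm L)] with x hx
      rw [hx]; simp

end Pool.Agent.Results.MP_3e0609_an.FullProjection
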